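import Pool.Agent.Lib.MP_0209a0_pr.Symb

/-!
The Wang-Swendsen-Kotecky dynamics off the functions that are invariant under the permutations of
the colours, at every temperature.
-/

set_option autoImplicit false

open Pool.Agent.WSK

/-- Off the colour-symmetric functions the transition matrix is at most `1 / 2`, and the
relaxation time is the maximum of `2` and of the relaxation time on the colour-symmetric
functions. -/
theorem Pool.Agent.Results.MP_0209a0_pr.ColourSymmetry.result (n : ℕ) [NeZero n] (_ : 4 ≤ n)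
    (he : Even n) (p : ℝ) (hp0 : 0 ≤ p) (hp1 : p ≤ 1) :
    (∀ f : Conf n → ℝ, (∀ σ : Conf n, ∑ φ : Equiv.Perm (ZMod 3), f (fun x => φ (σ x)) = 0) →
      ∑ σ, potts p σ * f σ ^ 2 ≤ ∑ σ, ∑ τ, potts p σ * step p σ τ * (f σ - f τ) ^ 2) ∧
    ∀ T : ℝ, Relax n p T ↔ 2 ≤ T ∧ ∀ f : Conf n → ℝ,
      (∀ (φ : Equiv.Perm (ZMod 3)) (σ : Conf n), f (fun x => φ (σ x)) = f σ) →
      ∑ σ, ∑ τ, potts p σ * potts p τ * (f σ - f τ) ^ 2 ≤
        T * ∑ σ, ∑ τ, potts p σ * step p σ τ * (f σ - f τ) ^ 2 := by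
  refine ⟨fun f hf => ?_, fun T => relax_iff he hp0 hp1 T⟩
  have h := half hp0 hp1 (f := f) hf
  unfold ip dir at h
  simpa only [sq] using h
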