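import Pool.Agent.Lib.MP_0209a0_pr.HtG

/-!
The Wang-Swendsen-Kotecky dynamics at high temperature: a relaxation time bounded uniformly in the
size of the torus.
-/

set_option autoImplicit false

open Pool.Agent.WSK

/-- A bound for the relaxation time that does not depend on `n` for `4 p < 1 + q + q ^ 3`, where
`q = 1 - p = exp (-β)`. -/
theorem Pool.Agent.Results.MP_0209a0_pr.HighTemperature.result (n : ℕ) [NeZero n] (hn : 4 ≤ n)
    (he : Even n) (p : ℝ) (hp0 : 0 ≤ p) (hp1 : p < 1)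
    (h : 4 * p < 1 + (1 - p) + (1 - p) ^ 3) :
    Relax n p (3 * (1 + (1 - p) ^ 4) * (1 + (1 - p) + (1 - p) ^ 3) /
      ((1 - p) ^ 8 * (1 + (1 - p) + (1 - p) ^ 3 - 4 * p))) :=
  Ht.relax_high hn he hp0 hp1 h
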