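import Pool.Agent.Lib.MP_0209a0_pr.Fin

/-!
Polynomial relaxation time of the Wang-Swendsen-Kotecky dynamics of the 3-state antiferromagnetic
Potts model on the torus, at zero temperature and for `1 - p = exp (-β) ≤ 1 / (50 n ^ 2)`.
-/

set_option autoImplicit false

open Pool.Agent.WSK

/-- For every even `n ≥ 4` and every `p ≤ 1` with `1 - p ≤ 1 / (50 n ^ 2)` the relaxation time of
the dynamics on the `n × n` torus is at most `310 n ^ 9`. -/
theorem Pool.Agent.Results.MP_0209a0_pr.LowTemperature.result (n : ℕ) [NeZero n] (hn : 4 ≤ n)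
    (he : Even n) (p : ℝ) (hp : p ≤ 1) (hpn : 1 - p ≤ 1 / (50 * (n : ℝ) ^ 2)) :
    Relax n p (310 * (n : ℝ) ^ 9) :=
  relax_low hn he hp hpn
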