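import Pool.Agent.Lib.MP_0209a0_pr.HtG

/-!
The Wang-Swendsen-Kotecky dynamics at every positive temperature: the slow functions are close to
functions of the sites of either parity, uniformly in the size of the torus.
-/

set_option autoImplicit false

open Pool.Agent.WSK

/-- For all `p < 1` the distance of every function to the functions of the sites of one parity is
bounded by its Dirichlet form, uniformly in `n`. -/
theorem Pool.Agent.Results.MP_0209a0_pr.ParityFunctions.result (n : ℕ) [NeZero n] (hn : 4 ≤ n)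
    (he : Even n) (p : ℝ) (hp0 : 0 ≤ p) (hp1 : p < 1) (s : ZMod 2) (f : Conf n → ℝ) :
    ∃ g : Conf n → ℝ,
      (∀ σ τ : Conf n, (∀ x : Site n, ((x.1.val + x.2.val : ℕ) : ZMod 2) = s → σ x = τ x) →
        g σ = g τ) ∧
      ∑ σ, potts p σ * (f σ - g σ) ^ 2 ≤ 3 / 4 * (1 + (1 - p) ^ 4) / (1 - p) ^ 8 *
        ∑ σ, ∑ τ, potts p σ * step p σ τ * (f σ - f τ) ^ 2 :=
  Ht.near (by omega) he hp0 hp1 s f
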